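import Pool.Agent.H132R3.SplitAdd

set_option autoImplicit false

open Cardinal Pool.Agent.H132R3.SplitAdd

namespace Pool.Agent.Results.MP_312f56_gt.UltrafilterNumberBound

/-- Write `S` for the family of all sets of reals satisfying `Split(Ω, Λ)`, `add(S)` for its
additivity number and `𝔲` for the ultrafilter number.

(1) `ℵ₁ ≤ add(S) ≤ cf(𝔲)` (so `add(S) ≤ 𝔲`).
(2) If `cf(𝔲) = ℵ₁`, then `add(S) = ℵ₁`.
(3) Every set of reals of size less than `𝔲` is in `S`, and some set of reals of size `𝔲` is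
not. -/
theorem result :
    (ℵ₁ ≤ addSplit ∧ addSplit ≤ ultraNumber.ord.cof ∧ ultraNumber.ord.cof ≤ ultraNumber) ∧
    (ultraNumber.ord.cof = ℵ₁ → addSplit = ℵ₁) ∧
    (∀ X : Set ℝ, #X < ultraNumber → SplitOL X) ∧
    ∃ X : Set ℝ, #X = ultraNumber ∧ ¬ SplitOL X :=
  ⟨⟨aleph1_le_add, add_le_cof, Ordinal.cof_ord_le _⟩,
    fun h => le_antisymm (add_le_cof.trans h.le) aleph1_le_add,
    fun _ hX => split_of_lt hX, exists_not_split⟩

end Pool.Agent.Results.MP_312f56_gt.UltrafilterNumberBound
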